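import Mathlib
import Pool.Agent.Lib.MP_38ba9c_an.Defs
import Pool.Agent.Lib.MP_38ba9c_an.Lower5

open Filter
open Pool.Agent.Lib.MP_38ba9c_an

namespace Pool.Agent.Results.MP_38ba9c_an.SharpVelocity

/-- **The sharp velocity constant in dimension `d`.**  For every `d ≥ 2`,
`M_d = sup_A c K(A, c) = 1 + √d` (for every fixed `c > 0`) and
`L_d = sup_A liminf_{c → ∞} c K(A, c) = 1 + √d`,
where `A` runs over the symmetric positive definite real `d × d` matrices. -/
theorem result : ∀ d : ℕ, 2 ≤ d →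
    (∀ c : ℝ, 0 < c →
      IsLUB {x : ℝ | ∃ A : Matrix (Fin d) (Fin d) ℝ, A.PosDef ∧ x = c * K A c}
        (1 + Real.sqrt d)) ∧
    IsLUB {x : ℝ | ∃ A : Matrix (Fin d) (Fin d) ℝ, A.PosDef ∧
      x = liminf (fun c : ℝ => c * K A c) atTop} (1 + Real.sqrt d) := by
  intro d hd
  exact ⟨fun c hc => M_value (by omega) hc, L_value (by omega)⟩

end Pool.Agent.Results.MP_38ba9c_an.SharpVelocity
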